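import Pool.Agent.H37.CNL.Stmts

/-!
# Row VDG: reduction of `g` modulo `w ^ p - w` in the fixed field (copy of row RDG by helper99)
-/

set_option autoImplicit false

namespace Pool.CND

theorem vdg_thm (hVAS : S_VAS) (hRMX : S_RMX) (hTOT : S_TOT) : S_VDG := by
  intro p k L G _ _ _ _ _ _ ρ t P Δ N g hP hg
  obtain ⟨-, hfix, -, -, hinj⟩ := hVAS p k L G ρ t P Δ hP
  obtain ⟨w₀, hw0, hwN, hword⟩ := hRMX k L G P ρ N N (fun g => ⟨fun h => ⟨h, hfix g⟩, fun h => h.1⟩)
  have hpp := hP.pr
  haveI : Fact p.Prime := ⟨hpp⟩
  haveI : CharP k p := hP.ch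
  haveI : CharP L p := charP_of_injective_algebraMap (algebraMap k L).injective p
  have hp0 : p ≠ 0 := hpp.ne_zero
  have main : ∀ (n : ℕ) (g : L), (∀ a ∈ N, ρ a g = g) → P.Ge g (-(n : ℤ)) →
      ∃ w : L, (∀ a ∈ N, ρ a w = w) ∧
        (P.Ge (g - (w ^ p - w)) 0 ∨ (g - (w ^ p - w) ≠ 0 ∧
          ∃ m : ℤ, P.ord (g - (w ^ p - w)) = Nat.card N * m ∧ m < 0 ∧ ¬ (p : ℤ) ∣ m)) := by
    intro n
    induction n with
    | zero =>
      intro g hg h
      refine ⟨0, fun a _ => map_zero _, Or.inl ?_⟩
      rw [zero_pow hp0, sub_zero, sub_zero]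
      simpa using h
    | succ n ih =>
      intro g hg h
      by_cases h0 : P.Ge g 0
      · refine ⟨0, fun a _ => map_zero _, Or.inl ?_⟩
        rw [zero_pow hp0, sub_zero, sub_zero]
        exact h0
      obtain ⟨hgne, hglt⟩ := P.not_ge.1 h0
      obtain ⟨m, hm⟩ := hTOT k L G P ρ N hinj (fun n _ => hfix n) g hgne hg
      have hN : (0 : ℤ) < Nat.card N := by exact_mod_cast Nat.card_pos
      have hm0 : m < 0 := by
        rw [hm] at hglt
        by_contra hcon
        push Not at hcon
        have := mul_nonneg hN.le hcon
        linarith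
      by_cases hpm : (p : ℤ) ∣ m
      · obtain ⟨m', hm'⟩ := hpm
        -- the leading coefficient
        set u : L := g * w₀ ^ (-m) with hu
        have hwz : w₀ ^ (-m) ≠ 0 := zpow_ne_zero _ hw0
        have hune : u ≠ 0 := mul_ne_zero hgne hwz
        have huord : P.ord u = 0 := by
          rw [hu, P.ord_mul _ _ hgne hwz, P.ord_zpow hw0, hm, hword]
          ring
        obtain ⟨c, hc⟩ := P.residue u hune huord.ge
        have hcge : P.Ge (u - algebraMap k L c) 1 := by
          rcases hc with hc | hc
          · left
            rw [hc, sub_self]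
          · right
            omega
        have hcne : c ≠ 0 := by
          rintro rfl
          rw [map_zero, sub_zero] at hcge
          rcases hcge with h | h
          · exact hune h
          · omega
        obtain ⟨d, hd⟩ := IsAlgClosed.exists_pow_nat_eq c hpp.pos
        have hdne : d ≠ 0 := by
          rintro rfl
          rw [zero_pow hp0] at hd
          exact hcne hd.symm
        set v : L := algebraMap k L d * w₀ ^ m' with hv
        have hdL : algebraMap k L d ≠ 0 := by simpa using hdne
        have hwz' : w₀ ^ m' ≠ 0 := zpow_ne_zero _ hw0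
        have hvne : v ≠ 0 := mul_ne_zero hdL hwz'
        have hvord : P.ord v = Nat.card N * m' := by
          rw [hv, P.ord_mul _ _ hdL hwz', P.ord_const d hdne, P.ord_zpow hw0, hword]
          ring
        have hvN : ∀ a ∈ N, ρ a v = v := by
          intro a ha
          rw [hv, map_mul, AlgEquiv.commutes, map_zpow₀, hwN a ha]
        have hvp : v ^ p = algebraMap k L c * w₀ ^ m := by
          rw [hv, mul_pow, ← map_pow, hd, hm', ← zpow_natCast (w₀ ^ m') p, ← zpow_mul]
          congr 2
          ring
        have hgv : g - v ^ p = (u - algebraMap k L c) * w₀ ^ m := by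
          rw [hvp, sub_mul, hu, mul_assoc, ← zpow_add₀ hw0]
          simp
        have hge1 : P.Ge (g - v ^ p) (P.ord g + 1) := by
          rw [hgv]
          have h1 : P.Ge (w₀ ^ m) (P.ord g) := by
            right
            rw [P.ord_zpow hw0, hword, hm]
            linarith
          have h2 := P.ge_mul hcge h1
          exact P.ge_mono h2 (by linarith)
        have hp2 : (2 : ℤ) ≤ p := by exact_mod_cast hpp.two_le
        have hm'0 : m' < 0 := by
          by_contra hcon
          push Not at hcon
          have : 0 ≤ (p : ℤ) * m' := mul_nonneg (by linarith) hcon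
          linarith
        have hge2 : P.Ge v (P.ord g + 1) := by
          right
          rw [hvord, hm]
          have h1 : m + 1 ≤ m' := by
            rw [hm']
            nlinarith
          nlinarith
        have hg' : P.Ge (g - (v ^ p - v)) (P.ord g + 1) := by
          have h1 : g - (v ^ p - v) = (g - v ^ p) + v := by ring
          rw [h1]
          exact P.ge_add hge1 hge2
        have hg'N : ∀ a ∈ N, ρ a (g - (v ^ p - v)) = g - (v ^ p - v) := by
          intro a ha
          rw [map_sub, map_sub, map_pow, hvN a ha, hg a ha]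
        have hordn : -((n : ℤ) + 1) ≤ P.ord g := by
          rcases h with h | h
          · exact absurd h hgne
          · push_cast at h
            linarith
        obtain ⟨w, hw, hcon⟩ := ih (g - (v ^ p - v)) hg'N (P.ge_mono hg' (by linarith))
        refine ⟨v + w, fun a ha => by rw [map_add, hvN a ha, hw a ha], ?_⟩
        have he : g - ((v + w) ^ p - (v + w)) = g - (v ^ p - v) - (w ^ p - w) := by
          rw [add_pow_char]
          ring
        rw [he]
        exact hcon
      · refine ⟨0, fun a _ => map_zero _, Or.inr ?_⟩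
        rw [zero_pow hp0, sub_zero, sub_zero]
        exact ⟨hgne, m, hm, hm0, hpm⟩
  refine main (-P.ord g).toNat g hg ?_
  right
  have := Int.self_le_toNat (-P.ord g)
  linarith

end Pool.CND
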